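import Mathlib

set_option autoImplicit false
set_option linter.unusedSectionVars false

namespace Pool.Agent.H.MP_057dff_co

open Finset

variable {G : Type} [AddCommGroup G] {ι : Type} [DecidableEq ι]

def At (E : Finset ι) (x : ι → G) : Prop :=
  E.Nonempty ∧ ∑ j ∈ E, x j = 0 ∧ ∀ J ⊆ E, J.Nonempty → ∑ j ∈ J, x j = 0 → J = E

def ZF (S : Finset ι) (x : ι → G) : Prop := ∀ J ⊆ S, J.Nonempty → ∑ j ∈ J, x j ≠ 0

theorem ZF.mono {S T : Finset ι} {x : ι → G} (h : ZF S x) (hT : T ⊆ S) : ZF T x :=
  fun J hJ => h J (hJ.trans hT)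

theorem At.zf {E S : Finset ι} {x : ι → G} (h : At E x) (hS : S ⊆ E) {e : ι} (he : e ∈ E)
    (hn : e ∉ S) : ZF S x := fun J hJ hne e0 => by
  have := h.2.2 J (hJ.trans hS) hne e0
  exact hn (hJ (this ▸ he))

theorem At.neg {E : Finset ι} {x : ι → G} (h : At E x) : At E (fun j => - x j) :=
  ⟨h.1, by simp [h.2.1], fun J hJ hne e => h.2.2 J hJ hne (by simpa using e)⟩

variable [DecidableEq G]

def sums (S : Finset ι) (x : ι → G) : Finset G := S.powerset.image (fun J => ∑ j ∈ J, x j)

theorem mem_sums {S : Finset ι} {x : ι → G} {g : G} :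
    g ∈ sums S x ↔ ∃ J ⊆ S, ∑ j ∈ J, x j = g := by
  simp [sums]

theorem sums_mono {S T : Finset ι} (x : ι → G) (h : S ⊆ T) : sums S x ⊆ sums T x := by
  intro g hg
  obtain ⟨J, hJ, e⟩ := mem_sums.1 hg
  exact mem_sums.2 ⟨J, hJ.trans h, e⟩

theorem ZF.notMem {T K : Finset ι} {x : ι → G} (h : ZF (T ∪ K) x) (hd : Disjoint T K)
    (hK : K.Nonempty) : ∑ j ∈ T ∪ K, x j ∉ sums T x := by
  intro hm
  obtain ⟨J, hJ, e⟩ := mem_sums.1 hm
  have hJ' : J ⊆ T ∪ K := hJ.trans subset_union_left
  refine h ((T ∪ K) \ J) sdiff_subset ?_ ?_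
  · obtain ⟨k, hk⟩ := hK
    exact ⟨k, mem_sdiff.2 ⟨mem_union_right _ hk, fun hh => disjoint_left.1 hd (hJ hh) hk⟩⟩
  · rw [sum_sdiff_eq_sub hJ', e, sub_self]

theorem grow1 {S : Finset ι} {a : ι} {x : ι → G} (ha : a ∉ S) (h : ZF (insert a S) x) :
    (sums S x).card + 1 ≤ (sums (insert a S) x).card := by
  have e : insert a S = S ∪ {a} := by ext; simp [or_comm]
  have h1 := ZF.notMem (T := S) (K := {a}) (e ▸ h) (by simpa using ha) (by simp)
  rw [← card_insert_of_notMem h1]
  apply card_le_card
  intro g hg
  rcases mem_insert.1 hg with rfl | hg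
  · exact mem_sums.2 ⟨_, by rw [e], rfl⟩
  · exact sums_mono x (subset_insert _ _) hg

theorem grow {T : Finset ι} {x : ι → G} : ∀ R : Finset ι, Disjoint T R → ZF (T ∪ R) x →
    (sums T x).card + R.card ≤ (sums (T ∪ R) x).card := by
  intro R
  induction R using Finset.induction_on with
  | empty => simp
  | insert a R ha ih =>
    intro hd h
    rw [union_insert] at h ⊢
    have hd' : Disjoint T R := hd.mono_right (subset_insert _ _)
    have := ih hd' (h.mono (subset_insert _ _))
    have h2 := grow1 (S := T ∪ R) (a := a) (x := x) (by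
      simp only [mem_union, not_or]
      exact ⟨fun hh => disjoint_left.1 hd hh (mem_insert_self _ _), ha⟩) h
    rw [card_insert_of_notMem ha]
    omega

theorem grow' {T S : Finset ι} {x : ι → G} (hT : T ⊆ S) (h : ZF S x) :
    (sums T x).card + S.card ≤ (sums S x).card + T.card := by
  have e : T ∪ S \ T = S := union_sdiff_of_subset hT
  have := grow (T := T) (x := x) (S \ T) disjoint_sdiff (by rw [e]; exact h)
  rw [e] at this
  have h2 := card_sdiff_add_card_eq_card hT
  omega

theorem grow0 {S : Finset ι} {x : ι → G} (h : ZF S x) : S.card + 1 ≤ (sums S x).card := by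
  have := grow' (empty_subset S) h
  have h1 : (sums (∅ : Finset ι) x).card = 1 := by simp [sums]
  rw [h1, card_empty] at this
  omega

theorem At.card_le [Fintype G] {E : Finset ι} {x : ι → G} (h : At E x) :
    E.card ≤ Fintype.card G := by
  obtain ⟨e, he⟩ := h.1
  have := grow0 (h.zf (erase_subset e E) he (notMem_erase e E))
  have h2 := card_le_univ (sums (E.erase e) x)
  have h3 := card_erase_add_one he
  omega

theorem grow3 {S : Finset ι} {a b : ι} {x : ι → G} (ha : a ∉ S) (hb : b ∉ S) (hab : x a ≠ x b)
    (h : ZF (insert a (insert b S)) x) :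
    (sums S x).card + 3 ≤ (sums (insert a (insert b S)) x).card := by
  have hne : a ≠ b := fun e => hab (by rw [e])
  have hab' : a ∉ insert b S := by simp [hne, ha]
  have g1 := grow1 hab' h
  have e1 : S ∪ {a} ⊆ insert a (insert b S) := by intro t; simp; tauto
  have e2 : S ∪ {b} ⊆ insert a (insert b S) := by intro t; simp; tauto
  have n1 := ZF.notMem (T := S) (K := {a}) (h.mono e1) (by simpa using ha) (by simp)
  have n2 := ZF.notMem (T := S) (K := {b}) (h.mono e2) (by simpa using hb) (by simp)
  have e3 : S ∪ {a, b} = insert a (insert b S) := by ext t; simp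
  have n3 := ZF.notMem (T := S) (K := {a, b}) (e3 ▸ h) (by simp [ha, hb]) (by simp)
  have s1 : ∑ j ∈ S ∪ {a}, x j = ∑ j ∈ S, x j + x a := by
    rw [sum_union (by simpa using ha), sum_singleton]
  have s2 : ∑ j ∈ S ∪ {b}, x j = ∑ j ∈ S, x j + x b := by
    rw [sum_union (by simpa using hb), sum_singleton]
  have s3 : ∑ j ∈ S ∪ {a, b}, x j = ∑ j ∈ S, x j + (x a + x b) := by
    rw [sum_union (by simp [ha, hb]), sum_pair hne]
  have xa : x a ≠ 0 := by simpa using h {a} (by simp) (by simp)
  have xb : x b ≠ 0 := by simpa using h {b} (by simp) (by simp)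
  have c : (insert (∑ j ∈ S ∪ {a}, x j) (insert (∑ j ∈ S ∪ {b}, x j)
      (insert (∑ j ∈ S ∪ {a, b}, x j) (sums S x)))).card = (sums S x).card + 3 := by
    rw [card_insert_of_notMem, card_insert_of_notMem, card_insert_of_notMem n3]
    · simp only [mem_insert, not_or]
      refine ⟨?_, n2⟩
      rw [s2, s3]; simpa using xa
    · simp only [mem_insert, not_or]
      refine ⟨?_, ?_, n1⟩
      · rw [s1, s2]; simpa using hab
      · rw [s1, s3]; simpa using xb
  rw [← c]
  apply card_le_card
  intro g hg
  simp only [mem_insert] at hg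
  rcases hg with rfl | rfl | rfl | hg
  · exact mem_sums.2 ⟨_, e1, rfl⟩
  · exact mem_sums.2 ⟨_, e2, rfl⟩
  · exact mem_sums.2 ⟨_, by rw [e3], rfl⟩
  · exact sums_mono x ((subset_insert _ _).trans (subset_insert _ _)) hg

theorem lemM {x : ι → G} : ∀ (n : ℕ) (S : Finset ι), S.card = n → ZF S x →
    3 * S.card + 1 ≤ 2 * (sums S x).card ∨
      ∃ g, 2 * S.card + 1 ≤ (sums S x).card + (S.filter (fun j => x j = g)).card ∧
        S.card < 2 * (S.filter (fun j => x j = g)).card := by
  intro n
  induction n using Nat.strong_induction_on with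
  | _ n ih =>
  intro S hn h
  rcases S.eq_empty_or_nonempty with rfl | hne
  · left; simp [sums]
  obtain ⟨a, ha, hmax⟩ := exists_max_image S (fun i => (S.filter (fun j => x j = x i)).card) hne
  by_cases hall : ∀ b ∈ S, x b = x a
  · right
    refine ⟨x a, ?_⟩
    rw [filter_true_of_mem hall]
    have := grow0 h
    have := hne.card_pos
    omega
  push Not at hall
  obtain ⟨b, hb, hab⟩ := hall
  have hne' : a ≠ b := fun e => hab (by rw [e])
  set S' := (S.erase a).erase b with hS'
  have e : insert a (insert b S') = S := by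
    rw [hS', insert_erase (mem_erase.2 ⟨hne'.symm, hb⟩), insert_erase ha]
  have a' : a ∉ S' := by simp [hS']
  have b' : b ∉ S' := by simp [hS']
  have ab' : a ∉ insert b S' := by simp [hne', a']
  have c : S.card = S'.card + 2 := by
    rw [← e, card_insert_of_notMem ab', card_insert_of_notMem b']
  have g3 := grow3 a' b' hab.symm (by rw [e]; exact h)
  rw [e] at g3
  have cnt : ∀ g, (S.filter (fun j => x j = g)).card = (S'.filter (fun j => x j = g)).card +
      (if x a = g then 1 else 0) + (if x b = g then 1 else 0) := by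
    intro g
    conv_lhs => rw [← e]
    rw [filter_insert, filter_insert]
    by_cases h1 : x a = g <;> by_cases h2 : x b = g
    · exact absurd (h2.trans h1.symm) hab
    · simp only [if_pos h1, if_neg h2]
      rw [card_insert_of_notMem (by simp [a'])]
    · simp only [if_neg h1, if_pos h2]
      rw [card_insert_of_notMem (by simp [b'])]
    · simp only [if_neg h1, if_neg h2, add_zero]
  rcases ih S'.card (by omega) S' rfl (h.mono (by rw [← e]; intro t ht; simp [ht])) with k | ⟨g, k1, k2⟩
  · left; omega
  · by_cases h1 : x a = g ∨ x b = g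
    · right
      refine ⟨g, ?_⟩
      have := cnt g
      rcases h1 with h1 | h1
      · rw [if_pos h1, if_neg (fun h2 => hab (h2.trans h1.symm))] at this; omega
      · rw [if_pos h1, if_neg (fun h2 => hab (h1.trans h2.symm))] at this; omega
    · left
      push Not at h1
      have c1 := cnt g
      rw [if_neg h1.1, if_neg h1.2] at c1
      have c2 := cnt (x a)
      rw [if_pos rfl, if_neg hab] at c2
      obtain ⟨t, ht⟩ : (S'.filter (fun j => x j = g)).Nonempty := by
        rw [← card_pos]; omega
      have ht' := mem_filter.1 ht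
      have m := hmax t (by rw [← e]; simp [ht'.1])
      simp only [ht'.2] at m
      have d : (S'.filter (fun j => x j = g)).card + (S'.filter (fun j => x j = x a)).card ≤
          S'.card := by
        rw [← card_union_of_disjoint]
        · exact card_le_card (union_subset (filter_subset _ _) (filter_subset _ _))
        · rw [disjoint_filter]
          intro j _ e1 e2
          exact h1.1 (e2.symm.trans e1)
      omega

omit [DecidableEq G] in
theorem interval (w : ι → ℕ) : ∀ (n : ℕ) (T : Finset ι), T.card = n → (∀ j ∈ T, 1 ≤ w j) →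
    ∑ j ∈ T, w j + 1 ≤ 2 * T.card ∨ T = ∅ → ∀ k ≤ ∑ j ∈ T, w j, ∃ J ⊆ T, ∑ j ∈ J, w j = k := by
  intro n
  induction n using Nat.strong_induction_on with
  | _ n ih =>
  intro T hn h1 hs k hk
  rcases T.eq_empty_or_nonempty with rfl | hne
  · exact ⟨∅, Subset.rfl, by simpa using (Nat.le_zero.1 (by simpa using hk)).symm⟩
  have hs := hs.resolve_right hne.ne_empty
  obtain ⟨a, ha, hmax⟩ := exists_max_image T w hne
  have c := card_erase_add_one ha
  have s := add_sum_erase T w ha
  have low : (T.erase a).card ≤ ∑ j ∈ T.erase a, w j := by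
    rw [card_eq_sum_ones]
    exact sum_le_sum fun j hj => h1 j (mem_of_mem_erase hj)
  have hs' : ∑ j ∈ T.erase a, w j + 1 ≤ 2 * (T.erase a).card ∨ T.erase a = ∅ := by
    by_cases h2 : 2 ≤ w a
    · left; omega
    · have up : ∑ j ∈ T.erase a, w j ≤ (T.erase a).card := by
        rw [card_eq_sum_ones]
        exact sum_le_sum fun j hj => by have := hmax j (mem_of_mem_erase hj); omega
      rcases (T.erase a).eq_empty_or_nonempty with e | e
      · exact Or.inr e
      · have := e.card_pos
        left; omega
  have IH := ih _ (by omega) (T.erase a) rfl (fun j hj => h1 j (mem_of_mem_erase hj)) hs'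
  by_cases hk' : k ≤ ∑ j ∈ T.erase a, w j
  · obtain ⟨J, hJ, e⟩ := IH k hk'
    exact ⟨J, hJ.trans (erase_subset _ _), e⟩
  · obtain ⟨J, hJ, e⟩ := IH (k - w a) (by omega)
    have : a ∉ J := fun hh => notMem_erase a T (hJ hh)
    refine ⟨insert a J, insert_subset ha (hJ.trans (erase_subset _ _)), ?_⟩
    rw [sum_insert this, e]
    omega

theorem lemI [Fintype G] {E : Finset ι} {x : ι → G} (h : At E x) (g : G) :
    ∀ (m : ℕ) (T : Finset ι) (w : ι → ℕ), (E \ T).card = m → T ⊆ E →
      (∀ j ∈ T, 1 ≤ w j ∧ x j = w j • g) →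
      (∀ k ≤ ∑ j ∈ T, w j, ∃ J ⊆ T, ∑ j ∈ J, w j = k) →
      Fintype.card G < E.card + ∑ j ∈ T, w j → T ≠ E →
      ∃ w' : ι → ℕ, (∀ j ∈ E, 1 ≤ w' j ∧ x j = w' j • g) ∧ ∑ j ∈ E, w' j ≤ Fintype.card G := by
  intro m
  induction m using Nat.strong_induction_on with
  | _ m ih =>
  intro T w hm hT hw hint hn hne
  set τ := ∑ j ∈ T, w j with hτ
  have sm : ∀ J ⊆ T, ∑ j ∈ J, x j = (∑ j ∈ J, w j) • g := by
    intro J hJ
    rw [sum_smul]
    exact sum_congr rfl fun j hj => (hw j (hJ hj)).2
  obtain ⟨r, hr, hrT⟩ : ∃ r ∈ E, r ∉ T := by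
    by_contra hh
    push Not at hh
    exact hne (Subset.antisymm hT hh)
  have zT : ZF T x := h.zf hT hr hrT
  have nz : ∀ k, 1 ≤ k → k ≤ τ → k • g ≠ 0 := by
    intro k k1 k2 e
    obtain ⟨J, hJ, s⟩ := hint k k2
    refine zT J hJ ?_ (by rw [sm J hJ, s, e])
    rw [nonempty_iff_ne_empty]
    rintro rfl
    simp at s; omega
  have low : T.card ≤ τ := by
    rw [card_eq_sum_ones]
    exact sum_le_sum fun j hj => (hw j hj).1
  have upd : ∀ k, ∑ j ∈ insert r T, Function.update w r k j = k + τ := by
    intro k
    rw [sum_insert hrT, Function.update_self]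
    congr 1
    exact sum_congr rfl fun j hj => Function.update_of_ne (fun e : j = r => hrT (e ▸ hj)) _ _
  have updw : ∀ k, 1 ≤ k → x r = k • g → ∀ j ∈ insert r T,
      1 ≤ Function.update w r k j ∧ x j = Function.update w r k j • g := by
    intro k k1 k2 j hj
    rcases mem_insert.1 hj with rfl | hj
    · rw [Function.update_self]; exact ⟨k1, k2⟩
    · rw [Function.update_of_ne (fun e : j = r => hrT (e ▸ hj))]; exact hw j hj
  by_cases hlast : insert r T = E
  · have hpos : 0 < addOrderOf g := addOrderOf_pos g
    have hlt : τ < addOrderOf g := by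
      by_contra hh
      exact nz _ hpos (not_lt.1 hh) (addOrderOf_nsmul_eq_zero g)
    have xr : x r = (addOrderOf g - τ) • g := by
      have e1 := h.2.1
      rw [← hlast, sum_insert hrT, sm T Subset.rfl] at e1
      have e2 : (addOrderOf g - τ) • g + τ • g = 0 := by
        rw [← add_smul, Nat.sub_add_cancel hlt.le, addOrderOf_nsmul_eq_zero]
      exact add_right_cancel (e1.trans e2.symm)
    refine ⟨Function.update w r (addOrderOf g - τ), ?_, ?_⟩
    · rw [← hlast]; exact updw _ (by omega) xr
    · rw [← hlast, upd]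
      have := addOrderOf_le_card_univ (x := g)
      omega
  have hT' : insert r T ⊆ E := insert_subset hr hT
  obtain ⟨r', hr', hrT'⟩ : ∃ r' ∈ E, r' ∉ insert r T := by
    by_contra hh
    push Not at hh
    exact hlast (Subset.antisymm hT' hh)
  by_cases hk : ∃ k, 1 ≤ k ∧ k ≤ τ ∧ x r = k • g
  · obtain ⟨k, k1, k2, k3⟩ := hk
    refine ih _ ?_ (insert r T) (Function.update w r k) rfl hT' (updw k k1 k3) ?_ ?_ hlast
    · rw [← hm]
      apply card_lt_card
      refine ⟨sdiff_subset_sdiff Subset.rfl (subset_insert _ _), fun hh => ?_⟩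
      have := hh (mem_sdiff.2 ⟨hr, hrT⟩)
      simp at this
    · rw [upd]
      have same : ∀ J ⊆ T, ∑ j ∈ J, Function.update w r k j = ∑ j ∈ J, w j := fun J hJ =>
        sum_congr rfl fun j hj => Function.update_of_ne (fun e : j = r => hrT (e ▸ hJ hj)) _ _
      intro l hl
      by_cases hl' : l ≤ τ
      · obtain ⟨J, hJ, e⟩ := hint l hl'
        exact ⟨J, hJ.trans (subset_insert _ _), by rw [same J hJ, e]⟩
      · obtain ⟨J, hJ, e⟩ := hint (l - k) (by omega)
        refine ⟨insert r J, insert_subset_insert _ hJ, ?_⟩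
        rw [sum_insert (fun hh => hrT (hJ hh)), same J hJ, e, Function.update_self]
        omega
    · rw [upd]; omega
  · exfalso
    have zE : ZF (E.erase r') x := h.zf (erase_subset _ _) hr' (notMem_erase _ _)
    have sub : insert r T ⊆ E.erase r' := fun t ht => mem_erase.2 ⟨fun e => hrT' (e ▸ ht), hT' ht⟩
    have zI := zE.mono sub
    have g1 := grow' sub zE
    have c1 := card_le_univ (sums (E.erase r') x)
    have c2 := card_erase_add_one hr'
    have c3 := card_insert_of_notMem hrT
    have inj : ∀ i j, i ≤ τ → j ≤ τ → i • g = j • g → i = j := by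
      intro i j hi hj e
      rcases lt_trichotomy i j with l | l | l
      · exfalso
        refine nz (j - i) (by omega) (by omega) ?_
        have : (j - i) • g + i • g = j • g := by rw [← add_smul]; congr 1; omega
        rw [← e] at this; simpa using this
      · exact l
      · exfalso
        refine nz (i - j) (by omega) (by omega) ?_
        have : (i - j) • g + j • g = i • g := by rw [← add_smul]; congr 1; omega
        rw [e] at this; simpa using this
    have big : 2 * (τ + 1) ≤ (sums (insert r T) x).card := by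
      have d : Disjoint ((range (τ + 1)).image (fun k => k • g))
          ((range (τ + 1)).image (fun k => x r + k • g)) := by
        rw [disjoint_left]
        intro t h1 h2
        obtain ⟨i, hi, rfl⟩ := mem_image.1 h1
        obtain ⟨j, hj, e⟩ := mem_image.1 h2
        have hi := mem_range.1 hi
        have hj := mem_range.1 hj
        by_cases l : j < i
        · refine hk ⟨i - j, by omega, by omega, ?_⟩
          have : (i - j) • g + j • g = i • g := by rw [← add_smul]; congr 1; omega
          exact add_right_cancel (e.trans this.symm)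
        · obtain ⟨J, hJ, s⟩ := hint (j - i) (by omega)
          refine zI (insert r J) (insert_subset_insert _ hJ) (by simp) ?_
          rw [sum_insert (fun hh => hrT (hJ hh)), sm J hJ, s]
          have : (j - i) • g + i • g = j • g := by rw [← add_smul]; congr 1; omega
          rw [← this, ← add_assoc] at e
          simpa using e
      have k1 : ((range (τ + 1)).image (fun k => k • g)).card = τ + 1 := by
        rw [card_image_of_injOn, card_range]
        intro i hi j hj e
        exact inj i j (by simpa [Nat.lt_succ_iff] using hi) (by simpa [Nat.lt_succ_iff] using hj) e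
      have k2 : ((range (τ + 1)).image (fun k => x r + k • g)).card = τ + 1 := by
        rw [card_image_of_injOn, card_range]
        intro i hi j hj e
        exact inj i j (by simpa [Nat.lt_succ_iff] using hi) (by simpa [Nat.lt_succ_iff] using hj)
          (add_left_cancel e)
      have := card_union_of_disjoint d
      rw [k1, k2] at this
      rw [two_mul, ← this]
      apply card_le_card
      intro t ht
      rcases mem_union.1 ht with ht | ht
      · obtain ⟨i, hi, rfl⟩ := mem_image.1 ht
        obtain ⟨J, hJ, s⟩ := hint i (by have := mem_range.1 hi; omega)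
        exact mem_sums.2 ⟨J, hJ.trans (subset_insert _ _), by rw [sm J hJ, s]⟩
      · obtain ⟨i, hi, rfl⟩ := mem_image.1 ht
        obtain ⟨J, hJ, s⟩ := hint i (by have := mem_range.1 hi; omega)
        exact mem_sums.2 ⟨insert r J, insert_subset_insert _ hJ, by
          rw [sum_insert (fun hh => hrT (hJ hh)), sm J hJ, s]⟩
    omega

end Pool.Agent.H.MP_057dff_co
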