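import Mathlib
import Pool.Agent.H.MP_057dff_co.A

set_option autoImplicit false
set_option linter.unusedSectionVars false

namespace Pool.Agent.H.MP_057dff_co

open Finset

variable {G : Type} [AddCommGroup G] {ι : Type} [DecidableEq ι] [DecidableEq G] [Fintype G]

theorem long_atom {E : Finset ι} {x : ι → G} (h : At E x)
    (hl : 2 * Fintype.card G + 4 ≤ 3 * E.card) :
    ∃ (g : G) (w : ι → ℕ), (∀ j ∈ E, 1 ≤ w j ∧ x j = w j • g) ∧ ∑ j ∈ E, w j ≤ Fintype.card G := by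
  obtain ⟨e, he⟩ := h.1
  have z := h.zf (erase_subset e E) he (notMem_erase e E)
  have c1 := card_le_univ (sums (E.erase e) x)
  have c2 := card_erase_add_one he
  rcases lemM _ (E.erase e) rfl z with k | ⟨g, k, -⟩
  · omega
  refine ⟨g, ?_⟩
  set T := (E.erase e).filter (fun j => x j = g) with hT
  have s : ∑ j ∈ T, (fun _ => 1 : ι → ℕ) j = T.card := by simp
  refine lemI h g _ T (fun _ => 1) rfl ((filter_subset _ _).trans (erase_subset _ _)) ?_ ?_ ?_ ?_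
  · intro j hj
    exact ⟨le_rfl, by rw [one_smul]; exact (mem_filter.1 hj).2⟩
  · intro k hk
    rw [s] at hk
    obtain ⟨J, hJ, c⟩ := exists_subset_card_eq hk
    exact ⟨J, hJ, by simpa using c⟩
  · rw [s]; omega
  · intro e1
    have : e ∈ T := by rw [e1]; exact he
    exact notMem_erase e E (mem_filter.1 this).1

theorem excess {E X : Finset ι} {w : ι → ℕ} (hX : X ⊆ E) (h1 : ∀ j ∈ E, 1 ≤ w j) :
    X.card ≤ ∑ j ∈ X, w j ∧ ∑ j ∈ X, w j + E.card ≤ ∑ j ∈ E, w j + X.card := by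
  have a : X.card ≤ ∑ j ∈ X, w j := by
    rw [card_eq_sum_ones]; exact sum_le_sum fun j hj => h1 j (hX hj)
  have b : (E \ X).card ≤ ∑ j ∈ E \ X, w j := by
    rw [card_eq_sum_ones]; exact sum_le_sum fun j hj => h1 j (mem_sdiff.1 hj).1
  have c := sum_sdiff (f := w) hX
  have d := card_sdiff_add_card_eq_card hX
  omega

theorem upper0 {L E1 E2 E3 : Finset ι} {α β γ : ι → G} (h1 : At E1 α) (h2 : At E2 β)
    (h3 : At E3 γ) (s1 : E1 ⊆ L) (s2 : E2 ⊆ L) (s3 : E3 ⊆ L)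
    (t1 : L \ E1 ⊆ E2) (t1' : L \ E1 ⊆ E3) (t2 : L \ E2 ⊆ E1) (t2' : L \ E2 ⊆ E3)
    (t3 : L \ E3 ⊆ E1) (t3' : L \ E3 ⊆ E2)
    (z1 : ∀ j ∈ L \ E1, γ j = - β j) (z2 : ∀ j ∈ L \ E2, γ j = - α j)
    (z3 : ∀ j ∈ L \ E3, α j = - β j)
    (o1 : E2.card ≤ E1.card) (o2 : E3.card ≤ E2.card) : L.card ≤ Fintype.card G + 1 := by
  by_contra hL
  have c1 := card_sdiff_add_card_eq_card s1
  have c2 := card_sdiff_add_card_eq_card s2
  have c3 := card_sdiff_add_card_eq_card s3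
  have dXY : Disjoint (L \ E3) (L \ E2) := by
    rw [disjoint_left]
    intro j hj hj'
    exact (mem_sdiff.1 hj).2 (t2' hj')
  have c4 : (L \ E3).card + (L \ E2).card ≤ E1.card := by
    rw [← card_union_of_disjoint dXY]
    exact card_le_card (union_subset t3 t2)
  have n1 := h1.card_le
  obtain ⟨g, w, hw, hs⟩ := long_atom h1 (by omega)
  obtain ⟨x1, x2⟩ := excess t3 (fun j hj => (hw j hj).1)
  obtain ⟨y1, y2⟩ := excess t2 (fun j hj => (hw j hj).1)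
  have iX := interval w _ (L \ E3) rfl (fun j hj => (hw j (t3 hj)).1) (Or.inl (by omega))
  have iY := interval w _ (L \ E2) rfl (fun j hj => (hw j (t2 hj)).1) (Or.inl (by omega))
  obtain ⟨z, hz⟩ : (L \ E1).Nonempty := by rw [← card_pos]; omega
  have zX : z ∉ L \ E3 := fun hh => (mem_sdiff.1 hh).2 (t1' hz)
  have zY : z ∉ L \ E2 := fun hh => (mem_sdiff.1 hh).2 (t1 hz)
  obtain ⟨w2, hw2, hs2⟩ := lemI h2.neg g _ (L \ E3) w rfl t3'
    (fun j hj => ⟨(hw j (t3 hj)).1, by rw [← z3 j hj]; exact (hw j (t3 hj)).2⟩) iX (by omega)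
    (fun e => zX (by rw [e]; exact t1 hz))
  obtain ⟨-, u2⟩ := excess (X := {z}) (E := E2) (by simpa using t1 hz) (fun j hj => (hw2 j hj).1)
  rw [sum_singleton, card_singleton] at u2
  obtain ⟨J, hJ, e⟩ := iY (w2 z) (by omega)
  have zJ : z ∉ J := fun hh => zY (hJ hh)
  have key : insert z J = E3 := by
    refine h3.2.2 _ (insert_subset (t1' hz) (hJ.trans t2')) (by simp) ?_
    rw [sum_insert zJ, z1 z hz, (hw2 z (t1 hz)).2, ← e, sum_smul, ← sum_add_distrib]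
    refine sum_eq_zero fun j hj => ?_
    rw [z2 j (hJ hj), (hw j (t2 (hJ hj))).2, add_neg_cancel]
  have : L \ E1 ⊆ {z} := by
    intro t ht
    have := t1' ht
    rw [← key] at this
    rcases mem_insert.1 this with e | e
    · simp [e]
    · exact absurd (t1 ht) (mem_sdiff.1 (hJ e)).2
  have := card_le_card this
  rw [card_singleton] at this
  omega

theorem upper1 {L E1 E2 E3 : Finset ι} {α β γ : ι → G} (h1 : At E1 α) (h2 : At E2 β)
    (h3 : At E3 γ) (s1 : E1 ⊆ L) (s2 : E2 ⊆ L) (s3 : E3 ⊆ L)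
    (t1 : L \ E1 ⊆ E2) (t1' : L \ E1 ⊆ E3) (t2 : L \ E2 ⊆ E1) (t2' : L \ E2 ⊆ E3)
    (t3 : L \ E3 ⊆ E1) (t3' : L \ E3 ⊆ E2)
    (z1 : ∀ j ∈ L \ E1, γ j = - β j) (z2 : ∀ j ∈ L \ E2, γ j = - α j)
    (z3 : ∀ j ∈ L \ E3, α j = - β j) : L.card ≤ Fintype.card G + 1 := by
  have z1' : ∀ j ∈ L \ E1, β j = - γ j := fun j hj => by rw [z1 j hj, neg_neg]
  have z2' : ∀ j ∈ L \ E2, α j = - γ j := fun j hj => by rw [z2 j hj, neg_neg]
  have z3' : ∀ j ∈ L \ E3, β j = - α j := fun j hj => by rw [z3 j hj, neg_neg]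
  rcases le_total E2.card E1.card with a | a <;> rcases le_total E3.card E2.card with b | b <;>
    rcases le_total E3.card E1.card with c | c
  · exact upper0 h1 h2 h3 s1 s2 s3 t1 t1' t2 t2' t3 t3' z1 z2 z3 a b
  · exact upper0 h1 h2 h3 s1 s2 s3 t1 t1' t2 t2' t3 t3' z1 z2 z3 a b
  · exact upper0 h1 h3 h2 s1 s3 s2 t1' t1 t3 t3' t2 t2' z1' z3' z2' c b
  · exact upper0 h3 h1 h2 s3 s1 s2 t3 t3' t1' t1 t2' t2 z3' z1' z2 c a
  · exact upper0 h2 h1 h3 s2 s1 s3 t2 t2' t1 t1' t3' t3 z2 z1 z3' a c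
  · exact upper0 h2 h3 h1 s2 s3 s1 t2' t2 t3' t3 t1 t1' z2' z3 z1' b c
  · exact upper0 h3 h2 h1 s3 s2 s1 t3' t3 t2' t2 t1' t1 z3 z2' z1 b a
  · exact upper0 h3 h2 h1 s3 s2 s1 t3' t3 t2' t2 t1' t1 z3 z2' z1 b a

theorem single {L E1 E2 E3 : Finset ι} {α β γ : ι → G} {D : ℕ} (hD : 2 ≤ D) (h1 : At E1 α)
    (h2 : At E2 β) (h3 : At E3 γ) (d2 : E2.card ≤ D) (d3 : E3.card ≤ D)
    (cov : ∀ j ∈ L, j ∈ E1 ∨ j ∈ E2 ∨ j ∈ E3)
    (z : ∀ j ∈ L, α j + β j + γ j = 0) (z1 : ∀ j, j ∉ E1 → α j = 0) (z2 : ∀ j, j ∉ E2 → β j = 0)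
    (z3 : ∀ j, j ∉ E3 → γ j = 0) {j : ι} (hj : j ∈ L) (j2 : j ∉ E2) (j3 : j ∉ E3) :
    L.card ≤ D + 1 := by
  have j1 : j ∈ E1 := by
    rcases cov j hj with h | h | h
    · exact h
    · exact absurd h j2
    · exact absurd h j3
  have e1 : {j} = E1 := h1.2.2 _ (by simpa using j1) (by simp) (by
    have := z j hj
    rw [z2 j j2, z3 j j3] at this
    simpa using this)
  have n1 : ∀ i, i ≠ j → i ∉ E1 := fun i hi hh => hi (by rw [← e1] at hh; simpa using hh)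
  have c := card_erase_add_one hj
  by_cases k2 : L.erase j ⊆ E2
  · have := card_le_card k2; omega
  by_cases k3 : L.erase j ⊆ E3
  · have := card_le_card k3; omega
  obtain ⟨a, ha, a2⟩ := not_subset.1 k2
  obtain ⟨b, hb, b3⟩ := not_subset.1 k3
  have ha' := mem_erase.1 ha
  have hb' := mem_erase.1 hb
  have a3 : a ∈ E3 := ((cov a ha'.2).resolve_left (n1 a ha'.1)).resolve_left a2
  have b2 : b ∈ E2 := ((cov b hb'.2).resolve_left (n1 b hb'.1)).resolve_right b3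
  have e3 : {a} = E3 := h3.2.2 _ (by simpa using a3) (by simp) (by
    have := z a ha'.2
    rw [z1 a (n1 a ha'.1), z2 a a2] at this
    simpa using this)
  have e2 : {b} = E2 := h2.2.2 _ (by simpa using b2) (by simp) (by
    have := z b hb'.2
    rw [z1 b (n1 b hb'.1), z3 b b3] at this
    simpa using this)
  have : L ⊆ {j, b, a} := by
    intro t ht
    rcases cov t ht with h | h | h
    · rw [← e1] at h; simp [mem_singleton.1 h]
    · rw [← e2] at h; simp [mem_singleton.1 h]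
    · rw [← e3] at h; simp [mem_singleton.1 h]
  have h4 := card_le_card this
  have h5 : ({j, b, a} : Finset ι).card ≤ 3 := card_le_three
  omega

theorem upper {L E1 E2 E3 : Finset ι} {α β γ : ι → G} {D : ℕ} (hD : 2 ≤ D) (h1 : At E1 α)
    (h2 : At E2 β) (h3 : At E3 γ) (d1 : E1.card ≤ D) (d2 : E2.card ≤ D) (d3 : E3.card ≤ D)
    (s1 : E1 ⊆ L) (s2 : E2 ⊆ L) (s3 : E3 ⊆ L)
    (cov : ∀ j ∈ L, j ∈ E1 ∨ j ∈ E2 ∨ j ∈ E3)
    (z : ∀ j ∈ L, α j + β j + γ j = 0) (z1 : ∀ j, j ∉ E1 → α j = 0) (z2 : ∀ j, j ∉ E2 → β j = 0)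
    (z3 : ∀ j, j ∉ E3 → γ j = 0) (hG : D = Fintype.card G ∨ D = 3) : L.card ≤ D + 1 := by
  by_cases k1 : ∃ j ∈ L, j ∉ E2 ∧ j ∉ E3
  · obtain ⟨j, hj, a, b⟩ := k1
    exact single hD h1 h2 h3 d2 d3 cov z z1 z2 z3 hj a b
  by_cases k2 : ∃ j ∈ L, j ∉ E1 ∧ j ∉ E3
  · obtain ⟨j, hj, a, b⟩ := k2
    exact single hD h2 h1 h3 d1 d3 (fun j hj => by have := cov j hj; tauto)
      (fun j hj => by rw [← z j hj]; abel) z2 z1 z3 hj a b
  by_cases k3 : ∃ j ∈ L, j ∉ E1 ∧ j ∉ E2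
  · obtain ⟨j, hj, a, b⟩ := k3
    exact single hD h3 h1 h2 d1 d2 (fun j hj => by have := cov j hj; tauto)
      (fun j hj => by rw [← z j hj]; abel) z3 z1 z2 hj a b
  push Not at k1 k2 k3
  have t1 : L \ E1 ⊆ E2 := fun j hj => k3 j (mem_sdiff.1 hj).1 (mem_sdiff.1 hj).2
  have t1' : L \ E1 ⊆ E3 := fun j hj => k2 j (mem_sdiff.1 hj).1 (mem_sdiff.1 hj).2
  have t2' : L \ E2 ⊆ E3 := fun j hj => k1 j (mem_sdiff.1 hj).1 (mem_sdiff.1 hj).2
  have t2 : L \ E2 ⊆ E1 := fun j hj => by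
    by_contra hh; exact (mem_sdiff.1 hj).2 (k3 j (mem_sdiff.1 hj).1 hh)
  have t3 : L \ E3 ⊆ E1 := fun j hj => by
    by_contra hh; exact (mem_sdiff.1 hj).2 (k2 j (mem_sdiff.1 hj).1 hh)
  have t3' : L \ E3 ⊆ E2 := fun j hj => by
    by_contra hh; exact (mem_sdiff.1 hj).2 (k1 j (mem_sdiff.1 hj).1 hh)
  rcases hG with hG | hG
  · rw [hG]
    refine upper1 h1 h2 h3 s1 s2 s3 t1 t1' t2 t2' t3 t3' (fun j hj => ?_) (fun j hj => ?_)
      (fun j hj => ?_)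
    · have := z j (mem_sdiff.1 hj).1
      rw [z1 j (mem_sdiff.1 hj).2, zero_add] at this
      exact eq_neg_of_add_eq_zero_right this
    · have := z j (mem_sdiff.1 hj).1
      rw [z2 j (mem_sdiff.1 hj).2, add_zero] at this
      exact eq_neg_of_add_eq_zero_right this
    · have := z j (mem_sdiff.1 hj).1
      rw [z3 j (mem_sdiff.1 hj).2, add_zero] at this
      exact eq_neg_of_add_eq_zero_left this
  · have c2 := card_sdiff_add_card_eq_card s2
    have c3 := card_sdiff_add_card_eq_card s3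
    have dXY : Disjoint (L \ E3) (L \ E2) := by
      rw [disjoint_left]
      intro j hj hj'
      exact (mem_sdiff.1 hj).2 (t2' hj')
    have c4 : (L \ E3).card + (L \ E2).card ≤ E1.card := by
      rw [← card_union_of_disjoint dXY]
      exact card_le_card (union_subset t3 t2)
    omega

end Pool.Agent.H.MP_057dff_co
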