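import Mathlib
import Pool.Agent.H.MP_057dff_co.A

set_option autoImplicit false
set_option linter.unusedSectionVars false

namespace Pool.Agent.H.MP_057dff_co

open Finset

variable {G : Type} [AddCommGroup G] {ι : Type} [DecidableEq ι] [Fintype ι] {x : ι → G}

def Star (x : ι → G) : Prop :=
  ∀ I : Finset ι, I.Nonempty → (∃ e, e ∉ I) → ∀ g, ∃ J, ∑ j ∈ J, x j = g ∧ (J ⊆ I ∨ I ⊆ J)

theorem At.nz (h : At univ x) {J : Finset ι} {a e : ι} (ha : a ∈ J) (he : e ∉ J) :
    ∑ j ∈ J, x j ≠ 0 := fun s => he (by rw [h.2.2 J (subset_univ _) ⟨a, ha⟩ s]; exact mem_univ _)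

theorem At.dz (h : At univ x) {J K : Finset ι} {a e : ι} (d : Disjoint J K) (ha : a ∈ K)
    (he : e ∉ J) (he' : e ∉ K) : ∑ j ∈ J, x j + ∑ j ∈ K, x j ≠ 0 := by
  rw [← sum_union d]
  exact h.nz (e := e) (mem_union_right _ ha) (by simp [he, he'])

theorem At.comp (h : At univ x) (J : Finset ι) : ∑ j ∈ Jᶜ, x j = - ∑ j ∈ J, x j := by
  have := sum_compl_add_sum J x
  rw [h.2.1] at this
  exact eq_neg_of_add_eq_zero_left this

theorem At.anti (h : At univ x) {J K : Finset ι} {a e : ι} (s : J ⊆ K) (ha : a ∈ K) (ha' : a ∉ J)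
    (he : e ∉ K) : ∑ j ∈ J, x j ≠ ∑ j ∈ K, x j := by
  intro q
  refine h.nz (J := K \ J) (mem_sdiff.2 ⟨ha, ha'⟩) (fun hh => he (mem_sdiff.1 hh).1) ?_
  rw [sum_sdiff_eq_sub s, q, sub_self]

theorem blk (h : At univ x) (hs : Star x) {a j : ι} {I : Finset ι} (ha : a ∈ I) (hj : j ∉ I) :
    (∃ J ⊆ I.erase a, ∑ t ∈ J, x t = x a - x j) ∨
      (∃ L ⊆ Iᶜ.erase j, ∑ t ∈ L, x t = x j - x a) := by
  have hne : a ≠ j := fun e => hj (e ▸ ha)
  obtain ⟨J, e, hJ⟩ := hs I ⟨a, ha⟩ ⟨j, hj⟩ (x a - x j)
  have key : a ∈ J → j ∈ J := by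
    intro aJ
    by_contra jJ
    refine h.nz (J := insert j (J.erase a)) (a := j) (e := a) (by simp) (by simp [hne]) ?_
    rw [sum_insert (by simp [jJ]), sum_erase_eq_sub aJ, e]
    abel
  rcases hJ with hJ | hJ
  · left
    refine ⟨J, fun t ht => mem_erase.2 ⟨fun q => hj (hJ (key (q ▸ ht))), hJ ht⟩, e⟩
  · right
    refine ⟨Jᶜ, fun t ht => mem_erase.2 ⟨fun q => ?_, ?_⟩, by rw [h.comp, e]; abel⟩
    · exact (mem_compl.1 ht) (q ▸ key (hJ ha))
    · exact mem_compl.2 fun hh => (mem_compl.1 ht) (hJ hh)

theorem notin (h : At univ x) {K : Finset ι} {c i : ι} (hK : ∑ t ∈ K, x t = x c) (hi : i ∈ K)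
    (hic : i ≠ c) : c ∉ K := by
  intro cK
  refine h.nz (J := K.erase c) (a := i) (e := c) (mem_erase.2 ⟨hic, hi⟩) (notMem_erase _ _) ?_
  rw [sum_erase_eq_sub cK, hK, sub_self]

theorem sqfree (h : At univ x) (hs : Star x) {a b c : ι} (hc : x c ≠ x a) (hab : x a = x b) :
    a = b := by
  by_contra hne
  have ca : c ≠ a := fun e => hc (by rw [e])
  have cb : c ≠ b := fun e => hc (by rw [e, hab])
  have c0 : x c ≠ 0 := by simpa using h.nz (J := {c}) (a := c) (e := a) (by simp) (by simp [ca.symm])
  obtain ⟨K, e, hK⟩ := hs {a, b} (by simp) ⟨c, by simp [ca, cb]⟩ (x c)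
  have m : a ∈ K ∧ b ∈ K := by
    rcases hK with hK | hK
    · by_contra hn
      have : K ⊆ {a} ∨ K ⊆ {b} := by
        by_cases ha : a ∈ K
        · left
          intro t ht
          rcases mem_insert.1 (hK ht) with q | q
          · simp [q]
          · exact absurd ⟨ha, mem_singleton.1 q ▸ ht⟩ hn
        · right
          intro t ht
          rcases mem_insert.1 (hK ht) with q | q
          · exact absurd (q ▸ ht) ha
          · exact q
      rcases this with q | q <;> rcases subset_singleton_iff.1 q with rfl | rfl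
      · exact c0 (by simpa using e.symm)
      · exact hc (by simpa using e.symm)
      · exact c0 (by simpa using e.symm)
      · exact hc (by rw [hab]; simpa using e.symm)
    · exact ⟨hK (by simp), hK (by simp)⟩
  have cK := notin h e m.1 ca.symm
  have bK : b ∈ K.erase a := mem_erase.2 ⟨fun q => hne q.symm, m.2⟩
  have sK : ∑ t ∈ K.erase a, x t = x c - x a := by rw [sum_erase_eq_sub m.1, e]
  rcases blk h hs (a := c) (j := a) (I := insert c ((K.erase a).erase b)) (by simp)
    (by simp [ca.symm]) with ⟨J, hJ, s⟩ | ⟨L, hL, s⟩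
  · have hJ' : J ⊆ (K.erase a).erase b := by
      intro t ht
      have := mem_erase.1 (hJ ht)
      exact (mem_insert.1 this.2).resolve_left this.1
    exact h.anti (hJ'.trans (erase_subset _ _)) bK (fun hh => notMem_erase _ _ (hJ' hh))
      (notMem_erase a K) (s.trans sK.symm)
  · have aL : a ∉ L := fun hh => notMem_erase _ _ (hL hh)
    have cL : c ∉ L := fun hh => by simpa using hL hh
    by_cases bL : b ∈ L
    · refine h.nz (J := insert c (L.erase b)) (a := c) (e := a) (by simp) (by simp [ca.symm, aL]) ?_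
      rw [sum_insert (by simp [cL]), sum_erase_eq_sub bL, s, hab]
      abel
    · refine h.dz (J := L) (K := K.erase a) (e := a) ?_ bK aL (notMem_erase _ _) (by rw [s, sK]; abel)
      rw [disjoint_left]
      intro t ht ht'
      have := mem_compl.1 (mem_erase.1 (hL ht)).2
      exact this (mem_insert_of_mem (mem_erase.2 ⟨fun q => bL (q ▸ ht), ht'⟩))

theorem step (h : At univ x) (hs : Star x) {i j a : ι} {K0 K : Finset ι} (i0 : i ∉ K0)
    (j0 : j ∈ K0) (s0 : ∑ t ∈ K0, x t = x i) (a0 : a ∉ K0) (ai : a ≠ i)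
    (iK : i ∈ K) (jK : j ∈ K) (sK : ∑ t ∈ K, x t = x a) :
    ∃ J ⊆ (K \ insert i K0) ∪ K0.erase j, ∑ t ∈ J, x t = x a - x j := by
  have aK := notin h sK iK ai.symm
  have ij : i ≠ j := fun e => i0 (e ▸ j0)
  have aj : a ≠ j := fun e => a0 (e ▸ j0)
  have sK' : ∑ t ∈ K.erase j, x t = x a - x j := by rw [sum_erase_eq_sub jK, sK]
  rcases blk h hs (a := a) (j := j) (I := insert a ((K \ insert i K0) ∪ K0.erase j)) (by simp)
    (by simp [aj.symm, j0]) with ⟨J, hJ, s⟩ | ⟨L, hL, s⟩
  · refine ⟨J, fun t ht => ?_, s⟩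
    have := mem_erase.1 (hJ ht)
    exact (mem_insert.1 this.2).resolve_left this.1
  · exfalso
    have jL : j ∉ L := fun hh => notMem_erase _ _ (hL hh)
    have oL : ∀ t ∈ L, t ≠ a ∧ t ∉ K0 ∧ (t ∈ K → t = i) := by
      intro t ht
      have h1 := mem_erase.1 (hL ht)
      have h2 := mem_compl.1 h1.2
      simp only [mem_insert, mem_union, mem_sdiff, mem_erase, not_or] at h2
      tauto
    by_cases iL : i ∈ L
    · refine h.dz (J := L.erase i) (K := insert a (K0.erase j)) (a := a) (e := i) ?_ (by simp)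
        (notMem_erase _ _) (by simp [ai.symm, i0]) ?_
      · rw [disjoint_left]
        intro t ht ht'
        have := oL t (mem_of_mem_erase ht)
        rcases mem_insert.1 ht' with q | q
        · exact this.1 q
        · exact this.2.1 (mem_of_mem_erase q)
      · rw [sum_insert (by simp [a0]), sum_erase_eq_sub iL, sum_erase_eq_sub j0, s, s0]
        abel
    · refine h.dz (J := L) (K := K.erase j) (a := i) (e := j) ?_ (mem_erase.2 ⟨ij, iK⟩) jL
        (notMem_erase _ _) (by rw [s, sK']; abel)
      rw [disjoint_left]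
      intro t ht ht'
      exact iL ((oL t ht).2.2 (mem_of_mem_erase ht') ▸ ht)

theorem core [Fintype G] (h : At univ x) (hs : Star x) (h2 : 2 ≤ Fintype.card ι) :
    IsAddCyclic G ∨ (Nat.card G = 4 ∧ ∀ g : G, g + g = 0) := by
  classical
  haveI : Nontrivial ι := Fintype.one_lt_card_iff_nontrivial.1 h2
  have x0 : ∀ c, x c ≠ 0 := fun c => by
    obtain ⟨d, hd⟩ := exists_ne c
    simpa using h.nz (J := {c}) (a := c) (e := d) (by simp) (by simpa using hd)
  by_cases hall : ∀ a b, x a = x b
  · left
    obtain ⟨a, b, hab⟩ := exists_pair_ne ι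
    refine ⟨x a, fun g => ?_⟩
    obtain ⟨J, e, -⟩ := hs {a} (by simp) ⟨b, by simpa using hab.symm⟩ g
    refine ⟨(J.card : ℤ), ?_⟩
    rw [← e, sum_congr rfl (fun t _ => hall t a)]
    simp
  right
  push Not at hall
  obtain ⟨p, q, hpq⟩ := hall
  have inj : ∀ a b, x a = x b → a = b := by
    intro a b e
    by_cases hp : x p = x a
    · exact sqfree h hs (c := q) (fun e => hpq (hp.trans e.symm)) e
    · exact sqfree h hs (c := p) hp e
  have ex : ∃ r, ∃ (i : ι) (K : Finset ι), i ∉ K ∧ K.card = r ∧ ∑ t ∈ K, x t = x i := by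
    have pq : p ≠ q := fun e => hpq (by rw [e])
    obtain ⟨K, e, hK⟩ := hs {q} (by simp) ⟨p, by simpa using pq⟩ (x p)
    rcases hK with hK | hK
    · rcases subset_singleton_iff.1 hK with rfl | rfl
      · exact absurd (by simpa using e.symm) (x0 p)
      · exact absurd (by simpa using e.symm) hpq
    · exact ⟨_, p, K, notin h e (hK (by simp)) pq.symm, rfl, e⟩
  obtain ⟨i, K0, i0, c0, s0⟩ := Nat.find_spec ex
  have hmin : ∀ (a : ι) (K : Finset ι), a ∉ K → ∑ t ∈ K, x t = x a → K0.card ≤ K.card :=
    fun a K h1 h2 => c0 ▸ Nat.find_min' ex ⟨a, K, h1, rfl, h2⟩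
  have r2 : 2 ≤ K0.card := by
    by_contra hh
    have : K0.card = 0 ∨ K0.card = 1 := by omega
    rcases this with e | e
    · rw [card_eq_zero.1 e] at s0
      exact x0 i (by simpa using s0.symm)
    · obtain ⟨t, rfl⟩ := card_eq_one.1 e
      exact i0 (by simp [inj t i (by simpa using s0)])
  have full : ∀ a, a ≠ i → a ∈ K0 := by
    intro a ai
    by_contra a0
    have aI : a ∉ insert i K0 := by simp [ai, a0]
    obtain ⟨K, sK, hK⟩ := hs (insert i K0) (by simp) ⟨a, aI⟩ (x a)
    by_cases hsup : insert i K0 ⊆ K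
    · obtain ⟨j, j0⟩ : K0.Nonempty := by rw [← card_pos]; omega
      have iK : i ∈ K := hsup (by simp)
      have jK : j ∈ K := hsup (by simp [j0])
      obtain ⟨J, hJ, s⟩ := step h hs i0 j0 s0 a0 ai iK jK sK
      have ij : i ≠ j := fun e => i0 (e ▸ j0)
      refine h.anti (J := J) (K := K.erase j) (a := i) (e := j) ?_ (mem_erase.2 ⟨ij, iK⟩) ?_
        (notMem_erase _ _) (by rw [s, sum_erase_eq_sub jK, sK])
      · intro t ht
        rcases mem_union.1 (hJ ht) with k | k
        · have := mem_sdiff.1 k
          exact mem_erase.2 ⟨fun e => this.2 (by simp [e, j0]), this.1⟩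
        · have := mem_erase.1 k
          exact mem_erase.2 ⟨this.1, hsup (by simp [this.2])⟩
      · intro hh
        have := hJ hh
        simp [i0] at this
    · have hK := hK.resolve_right hsup
      have aK : a ∉ K := fun hh => aI (hK hh)
      have cK := hmin a K aK sK
      have iK : i ∈ K := by
        by_contra iK
        have : K ⊆ K0 := fun t ht => (mem_insert.1 (hK ht)).resolve_left (fun e => iK (e ▸ ht))
        rw [eq_of_subset_of_card_le this cK, s0] at sK
        exact ai (inj _ _ sK).symm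
      obtain ⟨j, hj⟩ : (K.erase i).Nonempty := by
        rw [← card_pos]
        have := card_erase_add_one iK
        omega
      have jK := mem_erase.1 hj
      have j0 : j ∈ K0 := (mem_insert.1 (hK jK.2)).resolve_left jK.1
      obtain ⟨J, hJ, s⟩ := step h hs i0 j0 s0 a0 ai iK jK.2 sK
      rw [sdiff_eq_empty_iff_subset.2 hK, empty_union] at hJ
      have jJ : j ∉ J := fun hh => notMem_erase _ _ (hJ hh)
      have sub : insert j J ⊆ K0 := insert_subset j0 (hJ.trans (erase_subset _ _))
      have s' : ∑ t ∈ insert j J, x t = x a := by rw [sum_insert jJ, s]; abel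
      have := hmin a (insert j J) (fun hh => a0 (sub hh)) s'
      rw [eq_of_subset_of_card_le sub this, s0] at s'
      exact ai (inj _ _ s').symm
  have pair : ∀ j ∈ K0, ∀ k ∈ K0, k ≠ j → x k = x j - x i := by
    intro j j0 k k0 kj
    have ij : i ≠ j := fun e => i0 (e ▸ j0)
    have kZ : k ∈ K0.erase j := mem_erase.2 ⟨kj, k0⟩
    rcases blk h hs (a := i) (j := j) (I := insert i ((K0.erase j).erase k)) (by simp)
      (by simp [ij.symm]) with ⟨J, hJ, s⟩ | ⟨L, hL, s⟩
    · exfalso
      have hJ' : J ⊆ (K0.erase j).erase k := by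
        intro t ht
        have := mem_erase.1 (hJ ht)
        exact (mem_insert.1 this.2).resolve_left this.1
      exact h.anti (hJ'.trans (erase_subset _ _)) kZ (fun hh => notMem_erase _ _ (hJ' hh))
        (notMem_erase j K0) (by rw [s, sum_erase_eq_sub j0, s0])
    · have : L ⊆ {k} := by
        intro t ht
        have h1 := mem_erase.1 (hL ht)
        have h2 := mem_compl.1 h1.2
        simp only [mem_insert, mem_erase, not_or] at h2
        have := full t h2.1
        simp only [mem_singleton]
        tauto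
      rcases subset_singleton_iff.1 this with rfl | rfl
      · exact absurd (inj _ _ (sub_eq_zero.1 (by simpa using s.symm))) ij.symm
      · simpa using s
  obtain ⟨j, j0, k, k0, jk⟩ := one_lt_card.1 r2
  have e0 : K0 = {j, k} := by
    ext t
    simp only [mem_insert, mem_singleton]
    refine ⟨fun ht => ?_, by rintro (rfl | rfl) <;> assumption⟩
    by_contra hn
    push Not at hn
    exact hn.2 (inj _ _ ((pair j j0 t ht hn.1).trans (pair j j0 k k0 jk.symm).symm))
  have s1 : x j + x k = x i := by rw [← s0, e0, sum_pair jk]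
  have p1 := pair j j0 k k0 jk.symm
  have p2 := pair k k0 j j0 jk
  have kk : x k + x k = 0 := by
    have : x k + x k = (x k - (x j - x i)) + (x j + x k - x i) := by abel
    rw [this, ← p1, s1]; simp
  have jj : x j + x j = 0 := by
    have : x j + x j = (x j - (x k - x i)) + (x j + x k - x i) := by abel
    rw [this, ← p2, s1]; simp
  have ij : i ≠ j := fun e => i0 (e ▸ j0)
  have ik : i ≠ k := fun e => i0 (e ▸ k0)
  have all : ∀ g : G, g = 0 ∨ g = x j ∨ g = x k ∨ g = x i := by
    intro g
    obtain ⟨J, e, hJ⟩ := hs K0 ⟨j, j0⟩ ⟨i, i0⟩ g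
    rcases hJ with hJ | hJ
    · rw [e0] at hJ
      by_cases a : j ∈ J <;> by_cases b : k ∈ J
      · have : J = {j, k} := Subset.antisymm hJ (by simp [insert_subset_iff, a, b])
        rw [← e, this, sum_pair jk, s1]; simp
      · have : J = {j} := by
          ext t; simp only [mem_singleton]
          refine ⟨fun ht => ?_, fun q => q ▸ a⟩
          rcases mem_insert.1 (hJ ht) with q | q
          · exact q
          · exact absurd (mem_singleton.1 q ▸ ht) b
        rw [← e, this]; simp
      · have : J = {k} := by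
          ext t; simp only [mem_singleton]
          refine ⟨fun ht => ?_, fun q => q ▸ b⟩
          rcases mem_insert.1 (hJ ht) with q | q
          · exact absurd (q ▸ ht) a
          · exact mem_singleton.1 q
        rw [← e, this]; simp
      · have : J = ∅ := by
          rw [eq_empty_iff_forall_notMem]
          intro t ht
          rcases mem_insert.1 (hJ ht) with q | q
          · exact absurd (q ▸ ht) a
          · exact absurd (mem_singleton.1 q ▸ ht) b
        rw [← e, this]; simp
    · by_cases a : i ∈ J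
      · have : J = univ := by
          rw [eq_univ_iff_forall]
          intro t
          by_cases q : t = i
          · exact q ▸ a
          · exact hJ (full t q)
        rw [← e, this, h.2.1]; simp
      · have : J = K0 := Subset.antisymm (fun t ht => full t (fun q => a (q ▸ ht))) hJ
        rw [← e, this, s0]; simp
  constructor
  · have : (univ : Finset G) = {0, x j, x k, x i} := by
      ext g; simpa using all g
    rw [Nat.card_eq_fintype_card, ← card_univ, this]
    have n1 : x j ≠ x k := fun e => jk (inj _ _ e)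
    have n2 : x j ≠ x i := fun e => ij (inj _ _ e).symm
    have n3 : x k ≠ x i := fun e => ik (inj _ _ e).symm
    rw [card_insert_of_notMem, card_insert_of_notMem, card_pair n3]
    · simp [n1, n2]
    · simp [(x0 j).symm, (x0 k).symm, (x0 i).symm]
  · intro g
    rcases all g with rfl | rfl | rfl | rfl
    · simp
    · exact jj
    · exact kk
    · rw [← s1]
      have : x j + x k + (x j + x k) = (x j + x j) + (x k + x k) := by abel
      rw [this, jj, kk, add_zero]

end Pool.Agent.H.MP_057dff_co
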