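import Mathlib
import Pool.Agent.H.MP_057dff_co.B
import Pool.Agent.H.MP_057dff_co.C

set_option autoImplicit false
set_option linter.unusedSectionVars false

namespace Pool.Agent.H.MP_057dff_co

open Finset

variable {G : Type} [AddCommGroup G]

def MA (S : Multiset G) : Prop :=
  S ≠ 0 ∧ S.sum = 0 ∧ ∀ T : Multiset G, T ≤ S → T ≠ 0 → T.sum = 0 → T = S

theorem to_index {S : Multiset G} (h : MA S) :
    ∃ (n : ℕ) (x : Fin n → G), S = univ.val.map x ∧ At univ x ∧ S.card = n := by
  obtain ⟨l, rfl⟩ := Quotient.exists_rep S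
  have e : (⟦l⟧ : Multiset G) = univ.val.map l.get := by
    rw [Fin.univ_val_map, List.ofFn_get]; rfl
  have c : Multiset.card (⟦l⟧ : Multiset G) = l.length := rfl
  refine ⟨l.length, l.get, e, ⟨?_, ?_, ?_⟩, c⟩
  · rw [← card_pos, card_univ, Fintype.card_fin, ← c]
    exact Multiset.card_pos.2 h.1
  · have := h.2.1
    rw [e] at this
    exact this
  · intro J hJ hne s
    have := h.2.2 (J.val.map l.get) (by rw [e]; exact Multiset.map_le_map (val_le_iff.2 hJ))
      (by simpa using hne.ne_empty) s
    apply eq_univ_of_card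
    have := congrArg Multiset.card this
    rw [c] at this
    simpa using this

theorem lift {ι : Type} [DecidableEq ι] (x : ι → G) (T : Multiset G) :
    ∀ I : Finset ι, T ≤ I.val.map x → ∃ J ⊆ I, T = J.val.map x := by
  induction T using Multiset.induction_on with
  | empty => exact fun I _ => ⟨∅, empty_subset _, by simp⟩
  | cons a T ih =>
    intro I h
    obtain ⟨b, hb, rfl⟩ := Multiset.mem_map.1 (Multiset.mem_of_le h (Multiset.mem_cons_self a T))
    have hb' : b ∈ I := hb
    have e : I.val = b ::ₘ (I.erase b).val := by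
      rw [erase_val, Multiset.cons_erase hb]
    rw [e, Multiset.map_cons, Multiset.cons_le_cons_iff] at h
    obtain ⟨J, hJ, rfl⟩ := ih _ h
    have : b ∉ J := fun hh => notMem_erase _ _ (hJ hh)
    exact ⟨insert b J, insert_subset hb' (hJ.trans (erase_subset _ _)), by
      rw [insert_val_of_notMem this, Multiset.map_cons]⟩

theorem le_cons_cases {a : G} {T U : Multiset G} (h : T ≤ a ::ₘ U) :
    T ≤ U ∨ ∃ T', T = a ::ₘ T' ∧ T' ≤ U := by
  by_cases ha : a ∈ T
  · obtain ⟨T', rfl⟩ := Multiset.exists_cons_of_mem ha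
    exact Or.inr ⟨T', rfl, (Multiset.cons_le_cons_iff _).1 h⟩
  · exact Or.inl ((Multiset.le_cons_of_notMem ha).1 h)

theorem lemP {S : Multiset G} {a b : G} (h1 : ∀ T ≤ S, T.sum = 0 → T = 0)
    (h2 : ∀ T ≤ S, T.sum + a ≠ 0) (hb : b = - S.sum - a) : MA (a ::ₘ b ::ₘ S) := by
  refine ⟨Multiset.cons_ne_zero, by simp only [Multiset.sum_cons, hb]; abel, fun T hT hne s => ?_⟩
  have hT0 := le_cons_cases hT
  clear hT
  rcases hT0 with hT1 | ⟨T, rfl, hT1⟩ <;>
    rcases le_cons_cases hT1 with hT | ⟨T, rfl, hT⟩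
  · exact absurd (h1 T hT s) hne
  · exfalso
    obtain ⟨R, rfl⟩ := Multiset.le_iff_exists_add.1 hT
    refine h2 R (Multiset.le_add_left _ _) ?_
    simp only [Multiset.sum_cons, Multiset.sum_add, hb] at s
    rw [← neg_eq_zero, ← s]; abel
  · exact absurd (by rw [← s, Multiset.sum_cons, add_comm]) (h2 T hT)
  · obtain ⟨R, rfl⟩ := Multiset.le_iff_exists_add.1 hT
    have : R = 0 := by
      refine h1 R (Multiset.le_add_left _ _) ?_
      simp only [Multiset.sum_cons, Multiset.sum_add, hb] at s
      rw [← neg_eq_zero, ← s]; abel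
    rw [this, add_zero]

theorem MA.neg {S : Multiset G} (h : MA S) : MA (S.map Neg.neg) := by
  refine ⟨by simpa using h.1, by simp [Multiset.sum_map_neg', h.2.1], fun T hT hne s => ?_⟩
  have h1 : T.map Neg.neg ≤ S := by simpa using Multiset.map_le_map (f := Neg.neg) hT
  have := h.2.2 _ h1 (by simpa using hne) (by simp [Multiset.sum_map_neg', s])
  rw [← this]; simp

theorem pair_MA {y : G} (hy : y ≠ 0) : MA (y ::ₘ (-y) ::ₘ 0) :=
  lemP (fun T hT _ => Multiset.le_zero.1 hT)
    (fun T hT => by rw [Multiset.le_zero.1 hT]; simpa using hy) (by simp)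

theorem zero_MA : MA ({0} : Multiset G) := by
  refine ⟨by simp, by simp, fun T hT hne _ => ?_⟩
  exact (Multiset.le_singleton.1 hT).resolve_left hne

theorem pairs (R : Multiset G) : (∀ y ∈ R, y ≠ 0) → ∃ l : List (Multiset G),
    l.length = R.card ∧ (∀ S ∈ l, MA S) ∧ l.sum = R + R.map Neg.neg := by
  induction R using Multiset.induction_on with
  | empty => exact fun _ => ⟨[], rfl, by simp, by simp⟩
  | cons a R ih =>
    intro h
    obtain ⟨l, h1, h2, h3⟩ := ih fun y hy => h y (Multiset.mem_cons_of_mem hy)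
    refine ⟨(a ::ₘ (-a) ::ₘ 0) :: l, by simp [h1], ?_, ?_⟩
    · intro S hS
      rcases List.mem_cons.1 hS with rfl | hS
      · exact pair_MA (h a (Multiset.mem_cons_self _ _))
      · exact h2 S hS
    · rw [List.sum_cons, h3]
      simp only [← Multiset.singleton_add, Multiset.map_add, Multiset.map_singleton]
      abel

theorem MA.nz {S : Multiset G} (h : MA S) (h2 : 2 ≤ S.card) : ∀ y ∈ S, y ≠ 0 := by
  rintro y hy rfl
  have := h.2.2 {0} (by simpa using hy) (by simp) (by simp)
  rw [← this] at h2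
  simp at h2

theorem star {n : ℕ} {x : Fin n → G} (h : At univ x) (hS : MA (univ.val.map x))
    (hb : ∀ (A : Multiset G) (m : ℕ),
      (∃ l : List (Multiset G), l.length = 3 ∧ (∀ S ∈ l, MA S) ∧ l.sum = A) →
      (∃ l : List (Multiset G), l.length = m ∧ (∀ S ∈ l, MA S) ∧ l.sum = A) → m ≤ n + 1) :
    Star x := by
  classical
  rintro I ⟨p, hp⟩ ⟨e, he⟩ g
  by_contra hn
  push Not at hn
  have zf : ∀ J : Finset (Fin n), (∃ t, t ∉ J) → ∑ j ∈ J, x j = 0 → J = ∅ := by
    rintro J ⟨t, ht⟩ s
    by_contra hne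
    obtain ⟨a, ha⟩ := nonempty_iff_ne_empty.2 hne
    exact h.nz ha ht s
  have mV : MA (g ::ₘ (∑ j ∈ I, x j - g) ::ₘ Iᶜ.val.map x) := by
    refine lemP (fun T hT s => ?_) (fun T hT s => ?_) ?_
    · obtain ⟨J, hJ, rfl⟩ := lift x T _ hT
      rw [zf J ⟨p, fun hh => (mem_compl.1 (hJ hh)) hp⟩ s]; rfl
    · obtain ⟨J, hJ, rfl⟩ := lift x T _ hT
      refine (hn Jᶜ ?_).2 (fun t ht => mem_compl.2 fun hh => (mem_compl.1 (hJ hh)) ht)
      rw [h.comp]
      exact (eq_neg_of_add_eq_zero_right s).symm
    · have := h.comp I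
      change _ = - (∑ j ∈ Iᶜ, x j) - g
      rw [this, neg_neg]
  have mW : MA (g ::ₘ (∑ j ∈ I, x j - g) ::ₘ I.val.map (fun j => - x j)) := by
    refine lemP (fun T hT s => ?_) (fun T hT s => ?_) ?_
    · obtain ⟨J, hJ, rfl⟩ := lift _ T _ hT
      have s' : ∑ j ∈ J, - x j = 0 := s
      rw [zf J ⟨e, fun hh => he (hJ hh)⟩ (by simpa using s')]; rfl
    · obtain ⟨J, hJ, rfl⟩ := lift _ T _ hT
      have s' : ∑ j ∈ J, - x j + g = 0 := s
      refine (hn J ?_).1 hJ
      rw [sum_neg_distrib] at s'
      exact neg_add_eq_zero.1 s'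
    · change _ = - (∑ j ∈ I, - x j) - g
      simp
  have c2 : 2 ≤ (univ.val.map x).card := by
    have : Nontrivial (Fin n) := ⟨p, e, fun q => he (q ▸ hp)⟩
    simpa using Fin.nontrivial_iff_two_le.1 this
  obtain ⟨l, l1, l2, l3⟩ := pairs (g ::ₘ (∑ j ∈ I, x j - g) ::ₘ univ.val.map x) (by
    intro y hy
    rcases Multiset.mem_cons.1 hy with rfl | hy
    · exact mW.nz (by simp) _ (by simp)
    rcases Multiset.mem_cons.1 hy with rfl | hy
    · exact mW.nz (by simp) _ (by simp)
    · exact hS.nz c2 y hy)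
  have := hb _ _ ⟨[univ.val.map x, g ::ₘ (∑ j ∈ I, x j - g) ::ₘ I.val.map (fun j => - x j),
    (g ::ₘ (∑ j ∈ I, x j - g) ::ₘ Iᶜ.val.map x).map Neg.neg], rfl, by
      intro S hS'
      simp only [List.mem_cons, List.not_mem_nil, or_false] at hS'
      rcases hS' with rfl | rfl | rfl
      · exact hS
      · exact mW
      · exact mV.neg, rfl⟩ ⟨l, rfl, l2, by
      rw [l3]
      have e1 : (univ.val.map x).map Neg.neg =
          I.val.map (fun j => - x j) + (Iᶜ.val.map x).map Neg.neg := by
        have : (univ : Finset (Fin n)).val = I.val + Iᶜ.val := by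
          rw [← disjUnion_val I Iᶜ disjoint_compl_right]
          congr 1
          ext t; simp
        rw [this]; simp
      simp only [List.sum_cons, List.sum_nil, Multiset.map_cons, e1, ← Multiset.singleton_add,
        Multiset.map_add, Multiset.map_singleton]
      abel⟩
  rw [l1] at this
  simp at this

theorem refine3 [DecidableEq G] : ∀ (m : ℕ) (V : Fin m → Multiset G) (U1 U2 U3 : Multiset G),
    ∑ j, V j = U1 + U2 + U3 → ∃ a b c : Fin m → Multiset G,
      (∀ j, V j = a j + b j + c j) ∧ ∑ j, a j = U1 ∧ ∑ j, b j = U2 ∧ ∑ j, c j = U3 := by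
  intro m
  induction m with
  | zero =>
    intro V U1 U2 U3 h
    simp only [univ_eq_empty, sum_empty] at h
    have h' := h.symm
    rw [add_eq_zero, add_eq_zero] at h'
    exact ⟨fun _ => 0, fun _ => 0, fun _ => 0, fun j => j.elim0, by simp [h'.1.1],
      by simp [h'.1.2], by simp [h'.2]⟩
  | succ m ih =>
    intro V U1 U2 U3 h
    rw [Fin.sum_univ_succ] at h
    have le : V 0 ≤ U1 + U2 + U3 := h ▸ Multiset.le_add_right _ _
    have e : V 0 = V 0 ∩ U1 + (V 0 - U1) ∩ U2 + (V 0 - U1 - U2) := by
      ext t; simp only [Multiset.count_add, Multiset.count_inter, Multiset.count_sub]; omega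
    obtain ⟨a, b, c, k1, k2, k3, k4⟩ := ih (fun j => V j.succ) (U1 - V 0 ∩ U1)
      (U2 - (V 0 - U1) ∩ U2) (U3 - (V 0 - U1 - U2)) (by
        ext t
        have := congrArg (Multiset.count t) h
        simp only [Multiset.count_add, Multiset.count_inter, Multiset.count_sub] at this ⊢
        omega)
    refine ⟨Fin.cons (V 0 ∩ U1) a, Fin.cons ((V 0 - U1) ∩ U2) b, Fin.cons (V 0 - U1 - U2) c,
      ?_, ?_, ?_, ?_⟩
    · intro j
      refine Fin.cases ?_ (fun j => ?_) j
      · exact e
      · exact k1 j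
    all_goals
      rw [Fin.sum_univ_succ]
      simp only [Fin.cons_zero, Fin.cons_succ, k2, k3, k4]
      ext t
      have := Multiset.count_le_of_le t le
      simp only [Multiset.count_add, Multiset.count_inter, Multiset.count_sub] at this ⊢
      omega

theorem merge [DecidableEq G] {m : ℕ} {U : Multiset G} (h : MA U) {a : Fin m → Multiset G}
    (e : ∑ j, a j = U) :
    At (univ.filter (fun j => a j ≠ 0)) (fun j => (a j).sum) ∧
      (univ.filter (fun j => a j ≠ 0)).card ≤ U.card := by
  have e' : ∑ j ∈ univ.filter (fun j => a j ≠ 0), a j = U := by rw [sum_filter_ne_zero, e]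
  refine ⟨⟨?_, ?_, ?_⟩, ?_⟩
  · rw [nonempty_iff_ne_empty]
    intro q
    rw [q] at e'
    exact h.1 (by simpa using e'.symm)
  · rw [← Multiset.sum_sum, e', h.2.1]
  · intro J hJ hne s
    have sd := sum_sdiff (f := a) hJ
    rw [e'] at sd
    have := h.2.2 (∑ j ∈ J, a j) (sd ▸ Multiset.le_add_left _ _) (by
      obtain ⟨j, hj⟩ := hne
      intro q
      exact (mem_filter.1 (hJ hj)).2 ((sum_eq_zero_iff.1 q) j hj)) (by rw [Multiset.sum_sum, s])
    rw [this] at sd
    have z : ∑ j ∈ univ.filter (fun j => a j ≠ 0) \ J, a j = 0 := by simpa using sd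
    refine Subset.antisymm hJ fun t ht => ?_
    by_contra hh
    exact (mem_filter.1 ht).2 ((sum_eq_zero_iff.1 z) t (mem_sdiff.2 ⟨ht, hh⟩))
  · rw [← e', Multiset.card_sum, card_eq_sum_ones]
    exact sum_le_sum fun j hj => Multiset.card_pos.2 (mem_filter.1 hj).2

theorem bound [Fintype G] {D : ℕ} (hD : 2 ≤ D) (hG : D = Fintype.card G ∨ D = 3)
    (hmax : ∀ S : Multiset G, MA S → S.card ≤ D) (A : Multiset G) (m : ℕ)
    (h3 : ∃ l : List (Multiset G), l.length = 3 ∧ (∀ S ∈ l, MA S) ∧ l.sum = A)
    (hm : ∃ l : List (Multiset G), l.length = m ∧ (∀ S ∈ l, MA S) ∧ l.sum = A) : m ≤ D + 1 := by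
  classical
  obtain ⟨l3, e3, k3, s3⟩ := h3
  obtain ⟨U1, U2, U3, rfl⟩ := List.length_eq_three.1 e3
  obtain ⟨l, rfl, k, s⟩ := hm
  have s' : ∑ j, l.get j = U1 + U2 + U3 := by
    rw [← List.sum_ofFn, List.ofFn_get, s, ← s3]; simp [add_assoc]
  obtain ⟨a, b, c, v, ea, eb, ec⟩ := refine3 _ l.get U1 U2 U3 s'
  have m1 := k3 U1 (by simp)
  have m2 := k3 U2 (by simp)
  have m3 := k3 U3 (by simp)
  obtain ⟨a1, a2⟩ := merge m1 ea
  obtain ⟨b1, b2⟩ := merge m2 eb
  obtain ⟨c1, c2⟩ := merge m3 ec
  have kv : ∀ j, MA (l.get j) := fun j => k _ (List.get_mem _ _)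
  have := upper (L := univ) hD a1 b1 c1 (a2.trans (hmax _ m1)) (b2.trans (hmax _ m2))
    (c2.trans (hmax _ m3)) (subset_univ _) (subset_univ _) (subset_univ _) (by
      intro j _
      by_contra hn
      simp only [mem_filter, mem_univ, true_and, not_or, not_not] at hn
      exact (kv j).1 (by rw [v j, hn.1, hn.2.1, hn.2.2]; rfl)) (by
      intro j _
      have := (kv j).2.1
      rw [v j] at this
      simpa using this) (fun j hj => by
        simp only [mem_filter, mem_univ, true_and, not_not] at hj; simp [hj]) (fun j hj => by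
        simp only [mem_filter, mem_univ, true_and, not_not] at hj; simp [hj]) (fun j hj => by
        simp only [mem_filter, mem_univ, true_and, not_not] at hj; simp [hj]) hG
  simpa using this

theorem attain {S : Multiset G} (h : MA S) (h2 : 2 ≤ S.card) : ∃ A : Multiset G,
    (∃ l : List (Multiset G), l.length = 3 ∧ (∀ S ∈ l, MA S) ∧ l.sum = A) ∧
    (∃ l : List (Multiset G), l.length = S.card + 1 ∧ (∀ S ∈ l, MA S) ∧ l.sum = A) := by
  obtain ⟨l, l1, l2, l3⟩ := pairs S (h.nz h2)
  refine ⟨_, ⟨[{0}, S, S.map Neg.neg], rfl, ?_, rfl⟩, ⟨{0} :: l, by simp [l1], ?_, by simp [l3]⟩⟩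
  · intro T hT
    simp only [List.mem_cons, List.not_mem_nil, or_false] at hT
    rcases hT with rfl | rfl | rfl
    · exact zero_MA
    · exact h
    · exact h.neg
  · intro T hT
    rcases List.mem_cons.1 hT with rfl | hT
    · exact zero_MA
    · exact l2 T hT

theorem main [Fintype G] (hc : 3 ≤ Fintype.card G) :
    (∃ D : ℕ, (∃ S : Multiset G, MA S ∧ S.card = D) ∧ (∀ S : Multiset G, MA S → S.card ≤ D) ∧
      (∀ (A : Multiset G) (m : ℕ),
        (∃ l : List (Multiset G), l.length = 3 ∧ (∀ S ∈ l, MA S) ∧ l.sum = A) →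
        (∃ l : List (Multiset G), l.length = m ∧ (∀ S ∈ l, MA S) ∧ l.sum = A) → m ≤ D + 1) ∧
      (∃ A : Multiset G,
        (∃ l : List (Multiset G), l.length = 3 ∧ (∀ S ∈ l, MA S) ∧ l.sum = A) ∧
        (∃ l : List (Multiset G), l.length = D + 1 ∧ (∀ S ∈ l, MA S) ∧ l.sum = A))) ↔
    (IsAddCyclic G ∨ Nonempty (G ≃+ (ZMod 2 × ZMod 2))) := by
  classical
  have nt : Nontrivial G := Fintype.one_lt_card_iff_nontrivial.1 (by omega)
  constructor
  · rintro ⟨D, ⟨S, hS, rfl⟩, hmax, hb, -⟩
    obtain ⟨y, hy⟩ := exists_ne (0 : G)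
    have h2 : 2 ≤ S.card := by simpa using hmax _ (pair_MA hy)
    obtain ⟨n, x, e, h, c⟩ := to_index hS
    rw [c] at hb h2
    rcases core h (star h (e ▸ hS) hb) (by simpa using h2) with k | ⟨k1, k2⟩
    · exact Or.inl k
    · right
      have : IsAddKleinFour G := ⟨k1, (AddMonoid.exponent_eq_prime_iff Nat.prime_two).2 fun g hg =>
        addOrderOf_eq_prime (by rw [two_nsmul, k2]) hg⟩
      exact IsAddKleinFour.nonempty_addEquiv
  · rintro (h | ⟨⟨φ⟩⟩)
    · obtain ⟨g, hg⟩ := h.exists_generator
      have ho : addOrderOf g = Fintype.card G := by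
        rw [addOrderOf_eq_card_of_forall_mem_zmultiples hg, Nat.card_eq_fintype_card]
      have mS : MA (Multiset.replicate (Fintype.card G) g) := by
        refine ⟨fun q => by
          have := congrArg Multiset.card q
          simp only [Multiset.card_replicate, Multiset.card_zero] at this
          omega, by simp, fun T hT hne s => ?_⟩
        obtain ⟨k, hk, rfl⟩ := Multiset.le_replicate_iff.1 hT
        have : Fintype.card G ∣ k := by
          rw [← ho, addOrderOf_dvd_iff_nsmul_eq_zero]; simpa using s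
        have k0 : k ≠ 0 := by rintro rfl; simp at hne
        rw [le_antisymm hk (Nat.le_of_dvd (Nat.pos_of_ne_zero k0) this)]
      have hmax : ∀ S : Multiset G, MA S → S.card ≤ Fintype.card G := by
        intro S hS
        obtain ⟨n, x, -, h, c⟩ := to_index hS
        simpa [c] using h.card_le
      refine ⟨Fintype.card G, ⟨_, mS, by simp⟩, hmax, bound (by omega) (Or.inl rfl) hmax, ?_⟩
      simpa using attain mS (by simp; omega)
    · have c4 : Fintype.card G = 4 := by rw [Fintype.card_congr φ.toEquiv]; rfl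
      have two : ∀ g : G, g + g = 0 := fun g => φ.injective (by
        rw [map_add, map_zero]
        generalize φ g = t
        revert t; decide)
      have mS : MA (φ.symm (1, 0) ::ₘ φ.symm (1, 1) ::ₘ {φ.symm (0, 1)}) := by
        refine lemP (fun T hT s => ?_) (fun T hT s => ?_) ?_
        · rcases Multiset.le_singleton.1 hT with rfl | rfl
          · rfl
          · simp at s
        · rcases Multiset.le_singleton.1 hT with rfl | rfl
          · simp at s
          · rw [Multiset.sum_singleton, ← map_add, map_eq_zero_iff _ φ.symm.injective] at s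
            revert s; decide
        · rw [Multiset.sum_singleton, ← map_neg, ← map_sub]
          congr 1
      have hmax : ∀ S : Multiset G, MA S → S.card ≤ 3 := by
        intro S hS
        obtain ⟨n, x, -, h, c⟩ := to_index hS
        by_contra hn
        have hn : 4 ≤ n := by omega
        have inj : Function.Injective x := by
          intro a b e
          by_contra hab
          have := h.2.2 {a, b} (subset_univ _) (by simp) (by rw [sum_pair hab, e, two])
          have := congrArg card this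
          rw [card_pair hab] at this
          simp at this; omega
        have nz : ∀ a, x a ≠ 0 := by
          intro a e
          have := h.2.2 {a} (subset_univ _) (by simp) (by simpa using e)
          have := congrArg card this
          simp at this; omega
        have := card_le_card_of_injOn (s := univ) (t := univ.erase (0 : G)) x
          (fun a _ => by simpa using nz a) inj.injOn
        rw [card_erase_of_mem (mem_univ _), card_univ, card_univ, c4] at this
        simp at this; omega
      refine ⟨3, ⟨_, mS, by simp⟩, hmax, bound (by omega) (Or.inr rfl) hmax, ?_⟩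
      simpa using attain mS (by simp)

end Pool.Agent.H.MP_057dff_co
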